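import Pool.Agent.Lib.MP_3ee548_nt.RS.Iface

set_option autoImplicit false

namespace Pool.Agent.Lib.MP_3ee548_nt.RS.H38

open Pool.Agent.Lib.MP_3ee548_nt.RS

theorem norm_e (x : ℝ) : ‖e x‖ = 1 := by
  unfold e
  exact Complex.norm_exp_ofReal_mul_I _

theorem H_nonneg {z : ℝ} (hz : 0 < z) : 0 ≤ H z := by
  unfold H h0
  positivity

theorem H_le {z : ℝ} (hz : 0 < z) : H z ≤ Real.exp (-z) := by
  unfold H h0
  rw [Real.rpow_def_of_pos hz, ← Real.exp_add]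
  apply Real.exp_le_exp.2
  have h1 := Real.log_le_sub_one_of_pos (x := 1 / z) (by positivity)
  rw [one_div, Real.log_inv] at h1
  have h2 : 0 < z⁻¹ := by positivity
  have hpi := Real.pi_gt_three
  rw [one_div]
  nlinarith [mul_pos (sub_pos.2 hpi) h2, mul_pos (sub_pos.2 hpi) hz]

theorem lowb : LowbStatement := by
  refine ⟨1, one_pos, fun k xi => ?_⟩
  rw [one_mul]
  have hK : (1 : ℝ) ≤ (2 : ℝ) ^ k := one_le_pow₀ (by norm_num)
  have hK0 : (0 : ℝ) < (2 : ℝ) ^ k := by positivity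
  set r : ℝ := Real.exp (-(1 / (2 : ℝ) ^ k)) with hr
  have hr0 : 0 ≤ r := (Real.exp_pos _).le
  have hr1 : r < 1 := by
    rw [hr, Real.exp_lt_one_iff]
    have : 0 < 1 / (2 : ℝ) ^ k := by positivity
    linarith
  have h1 : ‖SB k xi‖ ≤ ∑ m ∈ Finset.Ico (1 : ℕ) (2 ^ (2 * k + 4)), r ^ m := by
    unfold SB
    refine (norm_sum_le _ _).trans (Finset.sum_le_sum fun m hm => ?_)
    have hm1 : 1 ≤ m := (Finset.mem_Ico.1 hm).1
    have hm0 : (0 : ℝ) < m := by exact_mod_cast hm1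
    have hz : 0 < (m : ℝ) / 2 ^ k := by positivity
    rw [norm_mul, norm_e, mul_one, Complex.norm_real, Real.norm_of_nonneg (H_nonneg hz)]
    refine (H_le hz).trans (le_of_eq ?_)
    rw [hr, ← Real.exp_nat_mul]
    congr 1
    ring
  refine h1.trans ((geom_sum_Ico_le_of_lt_one hr0 hr1).trans ?_)
  rw [pow_one, div_le_iff₀ (by linarith)]
  have h2 : 1 / (2 : ℝ) ^ k + 1 ≤ Real.exp (1 / (2 : ℝ) ^ k) := Real.add_one_le_exp _
  have h3 : r * Real.exp (1 / (2 : ℝ) ^ k) = 1 := by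
    rw [hr, ← Real.exp_add]
    simp
  have h4 : r * (1 / (2 : ℝ) ^ k + 1) ≤ 1 :=
    (mul_le_mul_of_nonneg_left h2 hr0).trans h3.le
  have h5 : r * (1 / (2 : ℝ) ^ k + 1) * (2 : ℝ) ^ k = r + r * (2 : ℝ) ^ k := by
    field_simp
  nlinarith

end Pool.Agent.Lib.MP_3ee548_nt.RS.H38
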