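import Pool.Agent.Lib.MP_3ee548_nt.RS.Iface

set_option autoImplicit false

namespace Pool.Agent.Lib.MP_3ee548_nt.RS.H38

open Pool.Agent.Lib.MP_3ee548_nt.RS

theorem e_add (x y : ℝ) : e (x + y) = e x * e y := by
  unfold e
  rw [← Complex.exp_add]
  congr 1
  push_cast
  ring

theorem e_zero : e 0 = 1 := by
  unfold e
  simp

theorem e_sum {ι : Type} (s : Finset ι) (f : ι → ℝ) : e (∑ i ∈ s, f i) = ∏ i ∈ s, e (f i) := by
  classical
  induction s using Finset.induction_on with
  | empty => simp [e_zero]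
  | insert a s ha ih => rw [Finset.sum_insert ha, Finset.prod_insert ha, e_add, ih]

theorem e_neg (x : ℝ) : e (-x) = (starRingEnd ℂ) (e x) := by
  unfold e
  rw [← Complex.exp_conj]
  congr 1
  rw [map_mul, Complex.conj_I, Complex.conj_ofReal]
  push_cast
  ring

theorem continuous_e : Continuous e := by
  unfold e
  fun_prop

theorem sum_sig (r n : ℕ) (t : ℝ) :
    ∑ x ∈ IV r n, e (t * sig r x) = (∑ m ∈ I n, e (t * sqf m)) ^ r := by
  have h := Finset.prod_univ_sum (fun _ : Fin r => I n) (fun _ m => e (t * sqf m))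
  rw [Finset.prod_const, Finset.card_univ, Fintype.card_fin] at h
  rw [h]
  unfold IV
  refine Finset.sum_congr rfl fun x _ => ?_
  rw [← e_sum]
  congr 1
  unfold sig sqf
  rw [Finset.mul_sum]

theorem mom1 (h1 : Pos1Statement) : Mom1Statement := by
  intro r n T hT
  have h := h1 (Fin r → ℕ) (sig r) (fun _ => 1) (IV r n) (IV r n) T hT (Finset.Subset.refl _)
    (fun _ _ => zero_le_one) (fun _ _ => le_rfl)
  have e1 : ∀ t : ℝ, ‖∑ i ∈ IV r n, (((fun _ => 1 : (Fin r → ℕ) → ℝ) i : ℝ) : ℂ) *
      e (t * sig r i)‖ ^ 2 = ‖∑ m ∈ I n, e (t * sqf m)‖ ^ (2 * r) := by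
    intro t
    simp only [Complex.ofReal_one, one_mul]
    rw [sum_sig, norm_pow, ← pow_mul, mul_comm r 2]
  simp only [e1] at h
  set f : ℝ → ℝ := fun t => ‖∑ m ∈ I n, e (t * sqf m)‖ ^ (2 * r) with hf
  have hcont : Continuous f := by
    rw [hf]
    refine (Continuous.norm ?_).pow _
    refine continuous_finsetSum _ fun m _ => ?_
    exact continuous_e.comp (continuous_id.mul continuous_const)
  have heven : ∀ t, f (-t) = f t := by
    intro t
    simp only [hf]
    have : ∑ m ∈ I n, e (-t * sqf m) = (starRingEnd ℂ) (∑ m ∈ I n, e (t * sqf m)) := by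
      rw [map_sum]
      refine Finset.sum_congr rfl fun m _ => ?_
      rw [← e_neg, neg_mul]
    rw [this, Complex.norm_conj]
  have e2 : ∫ t in (-T)..T, f t = 2 * ∫ t in (0 : ℝ)..T, f t := by
    rw [← intervalIntegral.integral_add_adjacent_intervals (b := 0)
      (hcont.intervalIntegrable _ _) (hcont.intervalIntegrable _ _)]
    have e3 : ∫ t in (-T)..0, f t = ∫ t in (0 : ℝ)..T, f t := by
      have := intervalIntegral.integral_comp_neg (a := 0) (b := T) f
      rw [neg_zero] at this
      rw [← this]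
      exact intervalIntegral.integral_congr fun t _ => heven t
    rw [e3]
    ring
  rw [e2] at h
  refine h.trans (le_of_eq ?_)
  ring

end Pool.Agent.Lib.MP_3ee548_nt.RS.H38
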