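import Pool.Agent.Lib.MP_3ee548_nt.RS.Iface

set_option autoImplicit false

namespace Pool.Agent.Lib.MP_3ee548_nt.RS.H38

open Pool.Agent.Lib.MP_3ee548_nt.RS

/-- two reciprocals close to the same number belong to close integers -/
theorem recip_close {K d d' : ℕ} {S : ℝ} (hK : 1 ≤ K) (h1 : K ≤ d) (h2 : d < 2 * K)
    (h1' : K ≤ d') (h2' : d' < 2 * K)
    (h : |S - 1 / (d : ℝ)| ≤ 1 / (K : ℝ) ^ 3) (h' : |S - 1 / (d' : ℝ)| ≤ 1 / (K : ℝ) ^ 3) :
    d ≤ d' + 8 := by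
  have hKr : (1 : ℝ) ≤ K := by exact_mod_cast hK
  have hd : (K : ℝ) ≤ d := by exact_mod_cast h1
  have hd' : (K : ℝ) ≤ d' := by exact_mod_cast h1'
  have hd2 : (d : ℝ) < 2 * K := by exact_mod_cast h2
  have hd2' : (d' : ℝ) < 2 * K := by exact_mod_cast h2'
  have hdp : (0 : ℝ) < d := by linarith
  have hdp' : (0 : ℝ) < d' := by linarith
  have e1 : 1 / (d' : ℝ) - 1 / d ≤ 2 / (K : ℝ) ^ 3 := by
    have a1 := (abs_le.1 h).2
    have a2 := (abs_le.1 h').1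
    have a3 : 2 / (K : ℝ) ^ 3 = 1 / (K : ℝ) ^ 3 + 1 / (K : ℝ) ^ 3 := by ring
    linarith
  have e2 : 1 / (d' : ℝ) - 1 / d = ((d : ℝ) - d') / (d * d') := by
    field_simp
  rw [e2, div_le_div_iff₀ (by positivity) (by positivity)] at e1
  -- (d - d') K^3 ≤ 2 d d' ≤ 8 K^2
  have e3 : (d : ℝ) * d' ≤ 4 * (K : ℝ) ^ 2 := by nlinarith
  have e4 : ((d : ℝ) - d') * (K : ℝ) ^ 3 ≤ 8 * (K : ℝ) ^ 2 := by linarith
  have e5 : (d : ℝ) - d' ≤ 8 := by
    by_contra hcon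
    push Not at hcon
    have hK2 : (0 : ℝ) < (K : ℝ) ^ 2 := by positivity
    have : 8 * (K : ℝ) ^ 2 < ((d : ℝ) - d') * (K : ℝ) ^ 3 := by
      have h3 : (K : ℝ) ^ 3 = K * (K : ℝ) ^ 2 := by ring
      rw [h3]
      have h4 : (K : ℝ) ^ 2 ≤ K * (K : ℝ) ^ 2 := by nlinarith
      have h5 : 0 < (K : ℝ) * (K : ℝ) ^ 2 := by positivity
      nlinarith [mul_lt_mul_of_pos_right hcon h5]
    linarith
  have e6 : (d : ℝ) ≤ ((d' + 8 : ℕ) : ℝ) := by
    push_cast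
    linarith
  exact_mod_cast e6

theorem card_le_nine {s : Finset ℕ} (h : ∀ a ∈ s, ∀ b ∈ s, a ≤ b + 8) : s.card ≤ 9 := by
  rcases s.eq_empty_or_nonempty with rfl | hs
  · simp
  · have hsub : s ⊆ Finset.Icc (s.min' hs) (s.min' hs + 8) := by
      intro a ha
      rw [Finset.mem_Icc]
      exact ⟨Finset.min'_le s a ha, h a ha _ (Finset.min'_mem s hs)⟩
    refine (Finset.card_le_card hsub).trans ?_
    rw [Nat.card_Icc]
    omega

theorem q_rcp_le (k : ℕ) :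
    Q rcp (blk k) (((2 : ℝ) ^ k) ^ (3 : ℝ)) ≤ 9 * ((2 : ℝ) ^ k) ^ (3 : ℝ) := by
  classical
  have hT : ((2 : ℝ) ^ k) ^ (3 : ℝ) = (((2 ^ k : ℕ) : ℝ)) ^ 3 := by
    rw [show (3 : ℝ) = ((3 : ℕ) : ℝ) by norm_num, Real.rpow_natCast]
    push_cast
    ring
  rw [hT]
  unfold Q PC
  set D : Finset ℕ := blk k with hD
  have hDmem : ∀ d ∈ D, 2 ^ k ≤ d ∧ d < 2 * 2 ^ k := by
    intro d hd
    rw [hD, blk, Finset.mem_Ico, pow_succ] at hd
    omega
  have hDcard : D.card = 2 ^ k := by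
    rw [hD, blk, Nat.card_Ico, pow_succ]
    omega
  set s := (((D ×ˢ D) ×ˢ (D ×ˢ D)).filter (fun p : (ℕ × ℕ) × (ℕ × ℕ) =>
    |(fun q : ℕ × ℕ => rcp q.1 + rcp q.2) p.1 - (fun q : ℕ × ℕ => rcp q.1 + rcp q.2) p.2| ≤
      1 / (((2 ^ k : ℕ) : ℝ)) ^ 3)) with hs
  have hcard : s.card ≤ 9 * (((D ×ˢ D) ×ˢ D).card) := by
    refine Finset.card_le_mul_card_image_of_maps_to (f := fun q : (ℕ × ℕ) × (ℕ × ℕ) =>
      (q.1, q.2.1)) (fun q hq => ?_) 9 (fun b hb => ?_)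
    · rw [hs, Finset.mem_filter, Finset.mem_product, Finset.mem_product, Finset.mem_product] at hq
      rw [Finset.mem_product, Finset.mem_product]
      exact ⟨hq.1.1, hq.1.2.1⟩
    · have hinj : Set.InjOn (fun q : (ℕ × ℕ) × (ℕ × ℕ) => q.2.2)
          ((s.filter fun q => (q.1, q.2.1) = b : Finset _) : Set ((ℕ × ℕ) × (ℕ × ℕ))) := by
        intro q hq q' hq' h
        simp only [Finset.coe_filter, Set.mem_ofPred_eq] at hq hq'
        have h3 := hq.2.trans hq'.2.symm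
        rw [Prod.mk.injEq] at h3
        exact Prod.ext h3.1 (Prod.ext h3.2 h)
      rw [← Finset.card_image_of_injOn hinj]
      refine card_le_nine fun d hd d' hd' => ?_
      rw [Finset.mem_image] at hd hd'
      obtain ⟨q, hq, rfl⟩ := hd
      obtain ⟨q', hq', rfl⟩ := hd'
      rw [Finset.mem_filter, hs, Finset.mem_filter, Finset.mem_product, Finset.mem_product,
        Finset.mem_product] at hq hq'
      have h3 := hq.2.trans hq'.2.symm
      rw [Prod.mk.injEq] at h3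
      have b1 := hDmem _ hq.1.1.2.2
      have b1' := hDmem _ hq'.1.1.2.2
      refine recip_close (K := 2 ^ k) (S := rcp q.1.1 + rcp q.1.2 - rcp q.2.1)
        Nat.one_le_two_pow b1.1 b1.2 b1'.1 b1'.2 ?_ ?_
      · have h4 := hq.1.2
        refine le_trans (le_of_eq ?_) h4
        congr 1
        simp only [rcp]
        ring
      · have h4 := hq'.1.2
        refine le_trans (le_of_eq ?_) h4
        congr 1
        rw [h3.1, h3.2]
        simp only [rcp]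
        ring
  have hc3 : ((D ×ˢ D) ×ˢ D).card = (2 ^ k) ^ 3 := by
    rw [Finset.card_product, Finset.card_product, hDcard]
    ring
  rw [hc3] at hcard
  have : (s.card : ℝ) ≤ ((9 * (2 ^ k) ^ 3 : ℕ) : ℝ) := by exact_mod_cast hcard
  refine this.trans (le_of_eq ?_)
  push_cast
  ring

theorem trivb : TrivbStatement := by
  intro ε hε
  refine ⟨9, by norm_num, fun k => (q_rcp_le k).trans ?_⟩
  have h1 : (1 : ℝ) ≤ (2 : ℝ) ^ k := one_le_pow₀ (by norm_num)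
  have h2 : ((2 : ℝ) ^ k) ^ (3 : ℝ) ≤ ((2 : ℝ) ^ k) ^ (3 + ε) :=
    Real.rpow_le_rpow_of_exponent_le h1 (by linarith)
  linarith

end Pool.Agent.Lib.MP_3ee548_nt.RS.H38
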